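import Pool.Agent.helper17.MLG.Spec

/-! # Row mlg:RTM (MP_84f457_gt) -/

set_option autoImplicit false
set_option linter.unusedSectionVars false

namespace Pool.Agent.MLG

open MeasureTheory Set Filter Topology Module
open scoped ENNReal ContDiff Pointwise

/-- Right translations change the volume by a bounded factor. -/
theorem RTM (hMES : MES_stmt) : RTM_stmt := by
  intro V _ _ _ _ _ _ hV
  have htop : IsTopologicalGroup V := top hV
  have hH : (vol V).IsHaarMeasure := (hMES V hV).1
  set K : Set V := Metric.closedBall (1 : V) 1 with hK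
  have hKc : IsCompact K := isCompact_closedBall _ _
  have hKK : IsCompact (K * K⁻¹) := hKc.mul hKc.inv
  have hfin : vol V (K * K⁻¹) < ⊤ := hKK.measure_lt_top
  have hKpos : 0 < vol V K := by
    refine lt_of_lt_of_le (Metric.isOpen_ball.measure_pos (vol V) ?_) (measure_mono Metric.ball_subset_closedBall)
    exact ⟨1, Metric.mem_ball_self one_pos⟩
  have hKfin : vol V K < ⊤ := hKc.measure_lt_top
  set R : ℝ≥0∞ := vol V (K * K⁻¹) / vol V K with hR
  have hRfin : R ≠ ⊤ := ENNReal.div_ne_top hfin.ne hKpos.ne'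
  have hRpos : 0 < R := by
    refine ENNReal.div_pos ?_ hKfin.ne
    have h1 : K ⊆ K * K⁻¹ := by
      intro x hx
      refine ⟨x, hx, 1, ?_, mul_one x⟩
      rw [Set.mem_inv, inv_one]
      exact Metric.mem_closedBall_self zero_le_one
    exact (lt_of_lt_of_le hKpos (measure_mono h1)).ne'
  refine ⟨R.toReal, ENNReal.toReal_pos hRpos.ne' hRfin, ?_⟩
  intro f hf c hc
  rw [ENNReal.ofReal_toReal hRfin]
  have hmeas : Measurable (fun x : V => x * c) := (continuous_mul_const c).measurable
  have hmap : Measure.map (· * c) (vol V) =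
      Measure.haarScalarFactor (Measure.map (· * c) (vol V)) (vol V) • vol V :=
    Measure.isMulLeftInvariant_eq_smul _ _
  set k := Measure.haarScalarFactor (Measure.map (· * c) (vol V)) (vol V) with hk
  have h1 : ∫⁻ x, f (x * c) ∂(vol V) = (k : ℝ≥0∞) * ∫⁻ x, f x ∂(vol V) := by
    rw [← lintegral_map hf hmeas, hmap]
    rw [lintegral_smul_measure]
    rfl
  have h2 : (k : ℝ≥0∞) * vol V K ≤ vol V (K * K⁻¹) := by
    have h3 : (k : ℝ≥0∞) * vol V K = Measure.map (· * c) (vol V) K := by
      rw [hmap]
      rfl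
    rw [h3, Measure.map_apply hmeas hKc.measurableSet]
    refine measure_mono ?_
    intro x hx
    have hcK : c ∈ K := by
      rw [hK, Metric.mem_closedBall, dist_eq_norm]
      exact hc
    refine ⟨x * c, hx, c⁻¹, ?_, mul_inv_cancel_right x c⟩
    rw [Set.mem_inv, inv_inv]
    exact hcK
  have h4 : (k : ℝ≥0∞) ≤ R := by
    rw [hR, ENNReal.le_div_iff_mul_le (Or.inl hKpos.ne') (Or.inl hKfin.ne)]
    exact h2
  rw [h1]
  gcongr

end Pool.Agent.MLG
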